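import Pool.Agent.Helper72.HG.Fox
set_option autoImplicit false

/-!
The dimension of the space of crossed homomorphisms in the presence of a relation.
-/

open MonoidAlgebra MulOpposite

namespace Pool.Agent.Helper72.HG

section

variable {Γ : Type} [Group Γ] {L : Type} [DivisionRing L]

/-- the linear extension of a homomorphism to the multiplicative monoid of `L` -/
noncomputable def ext (ρ : Γ →* L) : MonoidAlgebra ℤ Γ →+* L :=
  MonoidAlgebra.liftNCRingHom (Int.castRingHom L) ρ (fun n _ => Int.cast_commute n _)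

lemma ext_single (ρ : Γ →* L) (g : Γ) : ext ρ (single g 1) = ρ g := by
  simp [ext]

lemma ext_apply (ρ : Γ →* L) (m : MonoidAlgebra ℤ Γ) :
    ext ρ m = m.coeff.sum fun g k => k • ρ g := by
  simp [ext]
  rfl

lemma ext_injective (ρ : Γ →* L) (hρ : LinearIndependent ℤ ρ) (m : MonoidAlgebra ℤ Γ)
    (h : ext ρ m = 0) : m = 0 := by
  rw [ext_apply] at h
  have h1 : m.coeff = 0 := (linearIndependent_iff.1 hρ) m.coeff h
  exact MonoidAlgebra.coeff_injective h1

/-- the right `L`-module `L` is one-dimensional -/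
def opEquiv (L : Type) [DivisionRing L] : L ≃ₗ[Lᵐᵒᵖ] Lᵐᵒᵖ where
  toFun := op
  invFun := unop
  left_inv _ := rfl
  right_inv _ := rfl
  map_add' _ _ := rfl
  map_smul' _ _ := rfl

instance finite_op : Module.Finite Lᵐᵒᵖ L := Module.Finite.equiv (opEquiv L).symm

lemma finrank_op : Module.finrank Lᵐᵒᵖ L = 1 := by
  rw [(opEquiv L).finrank_eq, Module.finrank_self]

lemma finrank_op_fin (d : ℕ) : Module.finrank Lᵐᵒᵖ (Fin d → L) = d := by
  rw [Module.finrank_pi_fintype]
  simp [finrank_op]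

/-- left multiplication by a row vector -/
def rowMap {d : ℕ} (l : Fin d → L) : (Fin d → L) →ₗ[Lᵐᵒᵖ] L where
  toFun v := ∑ i, l i * v i
  map_add' v v' := by simp [mul_add, Finset.sum_add_distrib]
  map_smul' x v := by
    simp only [Pi.smul_apply, MulOpposite.smul_eq_mul_unop, RingHom.id_apply, Finset.sum_mul,
      mul_assoc]

lemma finrank_ker_rowMap {d : ℕ} (l : Fin d → L) (hl : l ≠ 0) :
    Module.finrank Lᵐᵒᵖ (LinearMap.ker (rowMap l)) + 1 = d := by
  obtain ⟨i, hi⟩ := Function.ne_iff.1 hl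
  have hsurj : Function.Surjective (rowMap l) := by
    intro y
    refine ⟨Pi.single i ((l i)⁻¹ * y), ?_⟩
    show ∑ j, l j * (Pi.single i ((l i)⁻¹ * y) : Fin d → L) j = y
    rw [Finset.sum_eq_single i]
    · rw [Pi.single_eq_same, ← mul_assoc, mul_inv_cancel₀ hi, one_mul]
    · intro j _ hj
      rw [Pi.single_eq_of_ne hj, mul_zero]
    · intro h
      exact absurd (Finset.mem_univ i) h
  have h1 := LinearMap.finrank_range_add_finrank_ker (rowMap l)
  rw [LinearMap.range_eq_top.2 hsurj, finrank_top, finrank_op, finrank_op_fin] at h1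
  omega

end

section

variable {d : ℕ} {G : Type} [Group G] (x : Fin d → G) {Γ : Type} [Group Γ]
  (φ : FreeGroup (Fin d) →* Γ) {L : Type} [DivisionRing L] (ρ : Γ →* L) (σ : G →* L)

lemma cross_one (c : G → L) (hc : c ∈ Z1 σ) : c 1 = 0 := by
  have h1 := hc 1 1
  rw [mul_one, map_one, one_mul] at h1
  exact left_eq_add.1 h1

lemma cross_inv (c : G → L) (hc : c ∈ Z1 σ) (g : G) : c g⁻¹ = -(σ g⁻¹ * c g) := by
  have h1 := hc g⁻¹ g
  rw [inv_mul_cancel, cross_one σ c hc] at h1
  exact eq_neg_of_add_eq_zero_left h1.symm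

/-- A crossed homomorphism on a word, by Fox derivatives. -/
lemma cross_fox (hσ : ∀ f, σ (FreeGroup.lift x f) = ρ (φ f)) (c : G → L) (hc : c ∈ Z1 σ)
    (f : FreeGroup (Fin d)) :
    c (FreeGroup.lift x f) = ∑ i, ext ρ (fox φ f i) * c (x i) := by
  induction f using FreeGroup.induction_on with
  | C1 =>
    rw [map_one, cross_one σ c hc, fox_one]
    simp
  | of i =>
    rw [FreeGroup.lift_apply_of, fox_of, Finset.sum_eq_single i]
    · rw [Pi.single_eq_same, map_one, one_mul]
    · intro j _ hj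
      rw [Pi.single_eq_of_ne hj, map_zero, zero_mul]
    · intro h
      exact absurd (Finset.mem_univ i) h
  | inv_of i hi =>
    rw [map_inv, cross_inv σ c hc, hi, ← map_inv, hσ, Finset.mul_sum, ← Finset.sum_neg_distrib]
    refine Finset.sum_congr rfl fun j _ => ?_
    have h1 : fox φ (FreeGroup.of i)⁻¹ j =
        -(single (φ (FreeGroup.of i)⁻¹) 1 * fox φ (FreeGroup.of i) j) := by
      rw [fox_inv, ← map_inv, ← map_inv]
      rfl
    rw [h1, map_neg, map_mul, ext_single, neg_mul, mul_assoc]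
  | mul a b ha hb =>
    rw [map_mul, hc, ha, hb, hσ, Finset.mul_sum, ← Finset.sum_add_distrib]
    refine Finset.sum_congr rfl fun j _ => ?_
    rw [fox_mul, Pi.add_apply, map_add, map_mul, ext_single, add_mul, mul_assoc]

/-- HG5 -/
theorem finrank_Z1_le (hx : Subgroup.closure (Set.range x) = ⊤)
    (hσ : ∀ f, σ (FreeGroup.lift x f) = ρ (φ f))
    (r : FreeGroup (Fin d)) (hr : FreeGroup.lift x r = 1) (hfox : fox φ r ≠ 0)
    (hρ : LinearIndependent ℤ ρ) :
    Module.Finite Lᵐᵒᵖ (Z1 σ) ∧ Module.finrank Lᵐᵒᵖ (Z1 σ) + 1 ≤ d := by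
  let l : Fin d → L := fun i => ext ρ (fox φ r i)
  have hl : l ≠ 0 := by
    intro h
    apply hfox
    funext i
    exact ext_injective ρ hρ _ (congrFun h i)
  let Φ : Z1 σ →ₗ[Lᵐᵒᵖ] LinearMap.ker (rowMap l) :=
    { toFun := fun c => ⟨fun i => c.1 (x i), by
        show ∑ i, l i * c.1 (x i) = 0
        rw [← cross_fox x φ ρ σ hσ c.1 c.2 r, hr]
        exact cross_one σ c.1 c.2⟩
      map_add' := fun _ _ => rfl
      map_smul' := fun _ _ => rfl }
  have hsurj : Function.Surjective (FreeGroup.lift x) := by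
    rw [← MonoidHom.range_eq_top, FreeGroup.range_lift_eq_closure, hx]
  have hinj : Function.Injective Φ := by
    rw [← LinearMap.ker_eq_bot, LinearMap.ker_eq_bot']
    intro c hc
    apply Subtype.ext
    funext g
    obtain ⟨f, rfl⟩ := hsurj g
    rw [cross_fox x φ ρ σ hσ c.1 c.2 f]
    have h1 : ∀ i, c.1 (x i) = 0 := fun i => congrFun (congrArg Subtype.val hc) i
    simp [h1]
  refine ⟨Module.Finite.of_injective Φ hinj, ?_⟩
  have h1 := LinearMap.finrank_le_finrank_of_injective hinj
  have h2 := finrank_ker_rowMap l hl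
  omega

end

end Pool.Agent.Helper72.HG
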