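import Pool.Agent.Helper72.HG.Fox
set_option autoImplicit false

/-!
Free groups are residually solvable; levels of subgroups in the derived series.
-/

open MonoidAlgebra

namespace Pool.Agent.Helper72.HG

/-- A perfect free group is trivial. -/
lemma subsingleton_of_free_of_perfect (G : Type) [Group G] [IsFreeGroup G]
    (h : commutator G = ⊤) : Subsingleton G := by
  have h0 : IsEmpty (IsFreeGroup.Generators G) := by
    by_contra hne
    rw [not_isEmpty_iff] at hne
    obtain ⟨s⟩ := hne
    let f : G →* Multiplicative ℤ :=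
      (FreeGroup.lift fun _ : IsFreeGroup.Generators G => Multiplicative.ofAdd (1 : ℤ)).comp
        (IsFreeGroup.toFreeGroup G).toMonoidHom
    have h1 : commutator G ≤ f.ker := Abelianization.commutator_subset_ker f
    rw [h] at h1
    have h2 : f (IsFreeGroup.of s) = 1 := h1 (Subgroup.mem_top _)
    have h3 : f (IsFreeGroup.of s) = Multiplicative.ofAdd (1 : ℤ) := by
      have : IsFreeGroup.toFreeGroup G (IsFreeGroup.of s) = FreeGroup.of s := by
        simp [IsFreeGroup.of, IsFreeGroup.toFreeGroup]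
      simp only [f, MonoidHom.comp_apply, MulEquiv.toMonoidHom_eq_coe, MonoidHom.coe_coe, this,
        FreeGroup.lift_apply_of]
    rw [h3] at h2
    have := congrArg Multiplicative.toAdd h2
    simp at this
  exact (IsFreeGroup.toFreeGroup G).toEquiv.subsingleton

section

variable {X : Type} [DecidableEq X] [Finite X]

/-- the intersection of the derived series -/
def dInf (X : Type) : Subgroup (FreeGroup X) := ⨅ n, derivedSeries (FreeGroup X) n

instance : (dInf X).Normal := by
  unfold dInf
  exact Subgroup.normal_iInf_normal fun n => inferInstance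

omit [DecidableEq X] [Finite X] in
lemma dInf_le (n : ℕ) : dInf X ≤ derivedSeries (FreeGroup X) n := iInf_le _ n

/-- the projection to the solvable quotient -/
def prj (X : Type) (n : ℕ) : FreeGroup X ⧸ dInf X →* FreeGroup X ⧸ derivedSeries (FreeGroup X) n :=
  QuotientGroup.map _ _ (MonoidHom.id _) (iInf_le _ n)

omit [DecidableEq X] [Finite X] in
lemma prj_comp (n : ℕ) : (prj X n).comp (QuotientGroup.mk' (dInf X)) =
    QuotientGroup.mk' (derivedSeries (FreeGroup X) n) := by
  ext w
  rfl

lemma prj_eq_one (γ : FreeGroup X ⧸ dInf X) (h : ∀ n, prj X n γ = 1) : γ = 1 := by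
  obtain ⟨g, rfl⟩ := QuotientGroup.mk'_surjective _ γ
  have h1 : ∀ n, g ∈ derivedSeries (FreeGroup X) n := by
    intro n
    have := h n
    rw [← MonoidHom.comp_apply, prj_comp] at this
    exact (QuotientGroup.eq_one_iff g).1 this
  exact (QuotientGroup.eq_one_iff g).2 (Subgroup.mem_iInf.2 h1)

lemma prj_ker_anti {m n : ℕ} (hmn : m ≤ n) (γ : FreeGroup X ⧸ dInf X) (h : prj X n γ = 1) :
    prj X m γ = 1 := by
  obtain ⟨g, rfl⟩ := QuotientGroup.mk'_surjective _ γ
  rw [← MonoidHom.comp_apply, prj_comp] at h ⊢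
  exact (QuotientGroup.eq_one_iff g).2
    (derivedSeries_antitone (G := FreeGroup X) hmn ((QuotientGroup.eq_one_iff g).1 h))

lemma exists_inj (S : Finset (FreeGroup X ⧸ dInf X)) :
    ∃ n, Set.InjOn (prj X n) (S : Set (FreeGroup X ⧸ dInf X)) := by
  classical
  have h1 : ∀ p : (FreeGroup X ⧸ dInf X) × (FreeGroup X ⧸ dInf X), ∃ n,
      prj X n p.1 = prj X n p.2 → p.1 = p.2 := by
    intro p
    by_cases h : p.1 = p.2
    · exact ⟨0, fun _ => h⟩
    · by_contra hcon
      push Not at hcon
      apply h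
      have h2 := prj_eq_one (p.1 * p.2⁻¹) (fun n => by
        rw [map_mul, map_inv, (hcon n).1, mul_inv_cancel])
      exact mul_inv_eq_one.1 h2
  choose f hf using h1
  refine ⟨(S ×ˢ S).sup f, ?_⟩
  intro a ha b hb hab
  have h2 : f (a, b) ≤ (S ×ˢ S).sup f :=
    Finset.le_sup (f := f) (Finset.mem_product.2 ⟨ha, hb⟩)
  apply hf (a, b)
  have h3 : prj X ((S ×ˢ S).sup f) (a * b⁻¹) = 1 := by
    rw [map_mul, map_inv, hab, mul_inv_cancel]
  have h4 := prj_ker_anti h2 _ h3
  rw [map_mul, map_inv, mul_inv_eq_one] at h4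
  exact h4

lemma fox_dInf (w : FreeGroup X) (hw : w ∈ dInf X) : fox (QuotientGroup.mk' (dInf X)) w = 0 := by
  funext i
  obtain ⟨n, hn⟩ := exists_inj (fox (QuotientGroup.mk' (dInf X)) w i).coeff.support
  have h1 : w ∈ ⁅derivedSeries (FreeGroup X) n, derivedSeries (FreeGroup X) n⁆ := by
    rw [← derivedSeries_succ]
    exact dInf_le (n + 1) hw
  have h2 := (fox_eq_zero_iff _ w (dInf_le n hw)).2 h1
  have h3 := fox_comp (QuotientGroup.mk' (dInf X)) (prj X n) w i
  rw [prj_comp, h2, Pi.zero_apply] at h3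
  have h4 : Finsupp.mapDomain (prj X n) (fox (QuotientGroup.mk' (dInf X)) w i).coeff = 0 := by
    have h5 := congrArg MonoidAlgebra.coeff h3.symm
    simpa using h5
  have h6 := Finsupp.mapDomain_injOn (M := ℤ)
    ((fox (QuotientGroup.mk' (dInf X)) w i).coeff.support : Set (FreeGroup X ⧸ dInf X)) hn
    (x₁ := (fox (QuotientGroup.mk' (dInf X)) w i).coeff) (x₂ := 0) (by simp) (by simp)
    (by rw [h4, Finsupp.mapDomain_zero])
  exact MonoidAlgebra.coeff_injective h6

/-- HG4c: free groups are residually solvable -/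
theorem iInf_derivedSeries : (⨅ n, derivedSeries (FreeGroup X) n) = ⊥ := by
  have h1 : ⁅dInf X, dInf X⁆ = dInf X := by
    apply le_antisymm
    · exact Subgroup.commutator_le_right _ _
    · intro w hw
      exact (fox_eq_zero_iff (dInf X) w hw).1 (fox_dInf w hw)
  have h2 : commutator (dInf X) = ⊤ := by
    have h3 : (commutator (dInf X)).map (dInf X).subtype = (⊤ : Subgroup (dInf X)).map
        (dInf X).subtype := by
      rw [Subgroup.map_subtype_commutator, h1, ← MonoidHom.range_eq_map, Subgroup.range_subtype]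
    exact Subgroup.map_injective (Subgroup.subtype_injective _) h3
  have h4 : Subsingleton (dInf X) := subsingleton_of_free_of_perfect _ h2
  exact Subgroup.eq_bot_of_subsingleton (dInf X)

lemma exists_level (P : Subgroup (FreeGroup X)) (hP : P ≠ ⊥) :
    ∃ n, P ≤ derivedSeries (FreeGroup X) n ∧ ¬ P ≤ derivedSeries (FreeGroup X) (n + 1) := by
  classical
  have h1 : ∃ n, ¬ P ≤ derivedSeries (FreeGroup X) n := by
    by_contra h
    push Not at h
    apply hP
    rw [eq_bot_iff, ← iInf_derivedSeries]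
    exact le_iInf h
  obtain ⟨n, hn, hmin⟩ : ∃ n, ¬ P ≤ derivedSeries (FreeGroup X) n ∧
      ∀ m < n, P ≤ derivedSeries (FreeGroup X) m :=
    ⟨Nat.find h1, Nat.find_spec h1, fun m hm => not_not.1 (Nat.find_min h1 hm)⟩
  cases n with
  | zero => exact absurd (by rw [derivedSeries_zero]; exact le_top) hn
  | succ n => exact ⟨n, hmin n (Nat.lt_succ_self n), hn⟩

lemma fox_pow (N : Subgroup (FreeGroup X)) [N.Normal] (g : FreeGroup X) (hg : g ∈ N) (k : ℕ) :
    fox (QuotientGroup.mk' N) (g ^ k) = k • fox (QuotientGroup.mk' N) g := by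
  induction k with
  | zero => rw [pow_zero, fox_one, zero_smul]
  | succ k ih => rw [pow_succ, fox_mem N _ (N.pow_mem hg k), ih, succ_nsmul]

/-- The quotient of `N` by its commutator subgroup is torsion-free. -/
lemma mem_commutator_of_pow (N : Subgroup (FreeGroup X)) [N.Normal] (g : FreeGroup X) (hg : g ∈ N)
    (k : ℕ) (hk : 0 < k) (h : g ^ k ∈ ⁅N, N⁆) : g ∈ ⁅N, N⁆ := by
  rw [← fox_eq_zero_iff N g hg]
  have h1 := (fox_eq_zero_iff N _ (N.pow_mem hg k)).2 h
  rw [fox_pow N g hg k] at h1
  funext i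
  have h2 := congrFun h1 i
  rw [Pi.smul_apply, Pi.zero_apply] at h2
  have h3 : k • (fox (QuotientGroup.mk' N) g i).coeff = 0 := by
    rw [← MonoidAlgebra.coeff_smul, h2, MonoidAlgebra.coeff_zero]
  apply MonoidAlgebra.coeff_injective
  ext γ
  have h4 := DFunLike.congr_fun h3 γ
  simpa [hk.ne'] using h4

end

end Pool.Agent.Helper72.HG
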