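import Mathlib
import Pool.Agent.Helper35.SH.Defs
set_option autoImplicit false

/-!
Definitions for the inequality `χ ≥ 4 - 2 d` for four-dimensional Poincare duality complexes whose
group is generated by `d` elements and not free on them.
-/

open MulOpposite

namespace Pool.Agent.Helper72.HG

/-- The crossed homomorphisms `c : G → L`, `c (g h) = c g + ρ(g) c h`, for a homomorphism `ρ` of
`G` to the multiplicative monoid of a ring `L`, as a right `L`-module. -/
def Z1 {G : Type} [Group G] {L : Type} [Ring L] (ρ : G →* L) : Submodule Lᵐᵒᵖ (G → L) where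
  carrier := {c | ∀ g h, c (g * h) = c g + ρ g * c h}
  add_mem' := by
    intro c c' hc hc' g h
    simp only [Pi.add_apply, hc g h, hc' g h, mul_add]
    abel
  zero_mem' := by
    intro g h
    simp
  smul_mem' := by
    intro x c hc g h
    simp only [Pi.smul_apply, hc g h, MulOpposite.smul_eq_mul_unop, add_mul, mul_assoc]

/-- the dual homomorphism `g ↦ w(g) ρ(g⁻¹)` into the opposite ring -/
def opp {G : Type} [Group G] {L : Type} [Ring L] (w : G →* ℤˣ) (ρ : G →* L) : G →* Lᵐᵒᵖ where
  toFun g := op ((w g : ℤ) • ρ g⁻¹)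
  map_one' := by simp
  map_mul' g h := by
    rw [← op_mul, map_mul, Units.val_mul, mul_inv_rev, map_mul, smul_mul_smul_comm,
      mul_comm (w h : ℤ)]

/-- the group elements as units of the group ring -/
noncomputable def unt (Γ : Type) [Group Γ] : Γ →* (MonoidAlgebra ℤ Γ)ˣ :=
  (Units.map (MonoidAlgebra.of ℤ Γ)).comp (toUnits : Γ ≃* Γˣ).toMonoidHom

/-- The affine action of the free group on `ℤ[Γ]^X` (along a homomorphism `φ` to `Γ`) in which the
generator `x` acts by `m ↦ e_x + φ(x) m`. -/
noncomputable def foxPerm {X : Type} [DecidableEq X] {Γ : Type} [Group Γ]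
    (φ : FreeGroup X →* Γ) : FreeGroup X →* Equiv.Perm (X → MonoidAlgebra ℤ Γ) :=
  FreeGroup.lift fun x =>
    Equiv.addLeft (Pi.single x 1 : X → MonoidAlgebra ℤ Γ) *
      MulAction.toPerm (unt Γ (φ (FreeGroup.of x)))

/-- Fox derivatives -/
noncomputable def fox {X : Type} [DecidableEq X] {Γ : Type} [Group Γ]
    (φ : FreeGroup X →* Γ) (w : FreeGroup X) : X → MonoidAlgebra ℤ Γ :=
  foxPerm φ w 0

/-- Groups with unique products and with Folner sets. -/
structure Tame (Γ : Type) [Group Γ] : Prop where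
  up : UniqueProds Γ
  folner : ∀ (T : Finset Γ) (ε : ℝ), 0 < ε → ∃ S : Finset Γ, S.Nonempty ∧
    ∀ U : Finset Γ, (∀ u ∈ U, ∃ s ∈ S, ∃ t ∈ T, u = s * t) → (U.card : ℝ) ≤ (1 + ε) * S.card

end Pool.Agent.Helper72.HG
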