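import Pool.Agent.Helper72.HG.Defs
set_option autoImplicit false

/-!
Fox calculus, the theorem of Magnus, and residual solvability of free groups.
-/

open MonoidAlgebra

namespace Pool.Agent.Helper72.HG

section Basic

variable {X : Type} [DecidableEq X] {Γ : Type} [Group Γ] (φ : FreeGroup X →* Γ)

lemma unt_smul (g : Γ) (m : X → MonoidAlgebra ℤ Γ) (i : X) :
    (unt Γ g • m) i = single g 1 * m i := rfl

lemma foxPerm_of (x : X) (m : X → MonoidAlgebra ℤ Γ) :
    foxPerm φ (FreeGroup.of x) m = Pi.single x 1 + unt Γ (φ (FreeGroup.of x)) • m := by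
  simp only [foxPerm, FreeGroup.lift_apply_of]
  rfl

lemma foxPerm_apply (w : FreeGroup X) : ∀ m : X → MonoidAlgebra ℤ Γ,
    foxPerm φ w m = fox φ w + unt Γ (φ w) • m := by
  induction w using FreeGroup.induction_on with
  | C1 =>
    intro m
    simp [fox]
  | of x =>
    intro m
    rw [fox, foxPerm_of, foxPerm_of, smul_zero, add_zero]
  | inv_of x _ =>
    have key : ∀ m : X → MonoidAlgebra ℤ Γ, foxPerm φ (FreeGroup.of x)⁻¹ m =
        (unt Γ (φ (FreeGroup.of x)))⁻¹ • (m - Pi.single x 1) := by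
      intro m
      rw [map_inv, Equiv.Perm.inv_eq_iff_eq, foxPerm_of, smul_inv_smul, add_sub_cancel]
    intro m
    rw [fox, key, key, map_inv, map_inv, zero_sub, smul_sub, smul_neg]
    abel
  | mul g h hg hh =>
    intro m
    have h1 : fox φ (g * h) = fox φ g + unt Γ (φ g) • fox φ h := by
      rw [fox, map_mul, Equiv.Perm.mul_apply, hg]
      rfl
    rw [h1, map_mul, Equiv.Perm.mul_apply, hg, hh, smul_add, map_mul, map_mul, mul_smul,
      add_assoc]

lemma fox_mul' (g h : FreeGroup X) : fox φ (g * h) = fox φ g + unt Γ (φ g) • fox φ h := by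
  rw [fox, map_mul, Equiv.Perm.mul_apply, foxPerm_apply φ g]
  rfl

theorem fox_mul (g h : FreeGroup X) :
    fox φ (g * h) = fox φ g + fun i => MonoidAlgebra.single (φ g) 1 * fox φ h i :=
  fox_mul' φ g h

theorem fox_of (x : X) : fox φ (FreeGroup.of x) = Pi.single x 1 := by
  rw [fox, foxPerm_of, smul_zero, add_zero]

lemma fox_one : fox φ 1 = 0 := by simp [fox]

lemma fox_inv (g : FreeGroup X) : fox φ g⁻¹ = -((unt Γ (φ g))⁻¹ • fox φ g) := by
  have h := fox_mul' φ g⁻¹ g
  rw [inv_mul_cancel, fox_one, map_inv, map_inv] at h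
  exact eq_neg_of_add_eq_zero_left h.symm

/-- naturality -/
lemma fox_comp {Γ' : Type} [Group Γ'] (θ : Γ →* Γ') (w : FreeGroup X) (i : X) :
    fox (θ.comp φ) w i = MonoidAlgebra.mapDomainRingHom ℤ θ (fox φ w i) := by
  have hs : ∀ (g : FreeGroup X), (single (θ.comp φ g) 1 : MonoidAlgebra ℤ Γ') =
      MonoidAlgebra.mapDomainRingHom ℤ θ (single (φ g) 1) := by
    intro g
    simp
  induction w using FreeGroup.induction_on generalizing i with
  | C1 => simp [fox_one]
  | of x =>
    rw [fox_of, fox_of]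
    by_cases h : i = x
    · subst h; simp
    · simp [Pi.single_eq_of_ne h]
  | inv_of x hx =>
    have h1 : ∀ {Γ₁ : Type} [Group Γ₁] (ψ : FreeGroup X →* Γ₁) (g : FreeGroup X) (i : X),
        fox ψ g⁻¹ i = -(single (ψ g⁻¹) 1 * fox ψ g i) := by
      intro Γ₁ _ ψ g i
      rw [fox_inv, ← map_inv, ← map_inv]
      rfl
    rw [h1, h1, map_neg, map_mul, ← hs, hx]
  | mul g h hg hh =>
    rw [fox_mul, fox_mul, Pi.add_apply, Pi.add_apply, map_add, map_mul, hg, hh, hs]

end Basic

section Magnus

variable {X : Type} [DecidableEq X] [Finite X] (N : Subgroup (FreeGroup X)) [N.Normal]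

lemma fox_mem (g : FreeGroup X) (hg : g ∈ N) (h : FreeGroup X) :
    fox (QuotientGroup.mk' N) (g * h) =
      fox (QuotientGroup.mk' N) g + fox (QuotientGroup.mk' N) h := by
  have h1 : QuotientGroup.mk' N g = 1 := (QuotientGroup.eq_one_iff g).2 hg
  rw [fox_mul', h1, map_one, one_smul]

/-- the kernel of the Fox derivatives on `N` -/
def foxKer : Subgroup (FreeGroup X) where
  carrier := {w | w ∈ N ∧ fox (QuotientGroup.mk' N) w = 0}
  one_mem' := ⟨N.one_mem, fox_one _⟩
  mul_mem' := by
    rintro a b ⟨ha, ha'⟩ ⟨hb, hb'⟩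
    exact ⟨N.mul_mem ha hb, by rw [fox_mem N a ha, ha', hb', add_zero]⟩
  inv_mem' := by
    rintro a ⟨ha, ha'⟩
    refine ⟨N.inv_mem ha, ?_⟩
    rw [fox_inv, ha', smul_zero, neg_zero]

lemma commutator_le_foxKer : ⁅N, N⁆ ≤ foxKer N := by
  rw [Subgroup.commutator_le]
  intro g hg h hh
  have h1 : ∀ a ∈ N, fox (QuotientGroup.mk' N) a⁻¹ = - fox (QuotientGroup.mk' N) a := by
    intro a ha
    have := fox_mem N a⁻¹ (N.inv_mem ha) a
    rw [inv_mul_cancel, fox_one] at this
    exact eq_neg_of_add_eq_zero_left this.symm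
  refine ⟨?_, ?_⟩
  · rw [commutatorElement_def]
    exact N.mul_mem (N.mul_mem (N.mul_mem hg hh) (N.inv_mem hg)) (N.inv_mem hh)
  · rw [commutatorElement_def, fox_mem N _ (N.mul_mem (N.mul_mem hg hh) (N.inv_mem hg)),
      fox_mem N _ (N.mul_mem hg hh), fox_mem N _ hg, h1 g hg, h1 h hh]
    abel

/-- the section of the quotient map -/
noncomputable def sct (γ : FreeGroup X ⧸ N) : FreeGroup X := Quotient.out γ

lemma mk_sct (γ : FreeGroup X ⧸ N) : QuotientGroup.mk' N (sct N γ) = γ := Quotient.out_eq γ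

/-- class in the abelianization of `N` of an element of the free group, moved to `N` -/
noncomputable def cl (w : FreeGroup X) : Additive (Abelianization N) :=
  Additive.ofMul (Abelianization.of ⟨w * (sct N (QuotientGroup.mk' N w))⁻¹, by
    rw [← QuotientGroup.eq_one_iff]
    show QuotientGroup.mk' N _ = 1
    rw [map_mul, map_inv, mk_sct, mul_inv_cancel]⟩)

/-- class of the edge `(γ, x)` of the Cayley graph of the quotient -/
noncomputable def edge (γ : FreeGroup X ⧸ N) (x : X) : Additive (Abelianization N) :=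
  Additive.ofMul (Abelianization.of
    ⟨sct N γ * FreeGroup.of x * (sct N (γ * QuotientGroup.mk' N (FreeGroup.of x)))⁻¹, by
    rw [← QuotientGroup.eq_one_iff]
    show QuotientGroup.mk' N _ = 1
    rw [map_mul, map_inv, map_mul, mk_sct, mk_sct, mul_inv_cancel]⟩)

lemma cl_mul_of (w : FreeGroup X) (x : X) :
    cl N (w * FreeGroup.of x) = cl N w + edge N (QuotientGroup.mk' N w) x := by
  unfold cl edge
  rw [← ofMul_mul, ← map_mul]
  congr 2
  apply Subtype.ext
  simp only [Subgroup.coe_mul, map_mul]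
  group

open scoped Classical in
/-- the additive map from edge chains -/
noncomputable def chainMap [Fintype X] :
    (X → MonoidAlgebra ℤ (FreeGroup X ⧸ N)) →+ Additive (Abelianization N) where
  toFun m := ∑ x, (m x).coeff.sum fun γ k => k • edge N γ x
  map_zero' := by simp
  map_add' := by
    intro m m'
    rw [← Finset.sum_add_distrib]
    refine Finset.sum_congr rfl fun x _ => ?_
    rw [Pi.add_apply, MonoidAlgebra.coeff_add]
    exact Finsupp.sum_add_index' (fun _ => zero_smul _ _) (fun _ _ _ => add_smul _ _ _)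

lemma chainMap_single [Fintype X] (γ : FreeGroup X ⧸ N) (x : X) :
    chainMap N (unt _ γ • Pi.single x 1) = edge N γ x := by
  classical
  show ∑ y, ((unt _ γ • (Pi.single x 1 : X → MonoidAlgebra ℤ (FreeGroup X ⧸ N))) y).coeff.sum
    (fun γ k => k • edge N γ y) = _
  rw [Finset.sum_eq_single x]
  · rw [unt_smul, Pi.single_eq_same, mul_one, MonoidAlgebra.coeff_single,
      Finsupp.sum_single_index (by rw [zero_smul]), one_smul]
  · intro y _ hy
    rw [unt_smul, Pi.single_eq_of_ne hy, mul_zero, MonoidAlgebra.coeff_zero]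
    rfl
  · intro h
    exact absurd (Finset.mem_univ x) h

lemma cl_mul [Fintype X] (w : FreeGroup X) : ∀ g : FreeGroup X,
    cl N (g * w) = cl N g + chainMap N (unt _ (QuotientGroup.mk' N g) •
      fox (QuotientGroup.mk' N) w) := by
  induction w using FreeGroup.induction_on with
  | C1 =>
    intro g
    rw [mul_one, fox_one, smul_zero, map_zero, add_zero]
  | of x =>
    intro g
    rw [cl_mul_of, fox_of, chainMap_single]
  | inv_of x _ =>
    intro g
    have h1 := cl_mul_of N (g * (FreeGroup.of x)⁻¹) x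
    rw [inv_mul_cancel_right] at h1
    have h2 : unt _ (QuotientGroup.mk' N g) • fox (QuotientGroup.mk' N) (FreeGroup.of x)⁻¹ =
        -(unt _ (QuotientGroup.mk' N (g * (FreeGroup.of x)⁻¹)) •
          (Pi.single x 1 : X → MonoidAlgebra ℤ (FreeGroup X ⧸ N))) := by
      rw [fox_inv, fox_of, smul_neg, ← map_inv, ← map_inv, ← mul_smul, ← map_mul, ← map_mul]
    rw [h2, map_neg, chainMap_single, h1]
    abel
  | mul a b ha hb =>
    intro g
    rw [← mul_assoc, hb, ha, fox_mul', smul_add, map_add, ← mul_smul, ← map_mul, ← map_mul,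
      add_assoc]

theorem mem_commutator_of_fox (w : FreeGroup X) (hw : w ∈ N)
    (hf : fox (QuotientGroup.mk' N) w = 0) : w ∈ ⁅N, N⁆ := by
  have := Fintype.ofFinite X
  have h1 := cl_mul N w 1
  rw [hf, smul_zero, map_zero, add_zero, one_mul] at h1
  have h2 : QuotientGroup.mk' N w = 1 := (QuotientGroup.eq_one_iff w).2 hw
  have hs : sct N 1 ∈ N := by
    rw [← QuotientGroup.eq_one_iff]
    exact mk_sct N 1
  have h3 : Abelianization.of (⟨w, hw⟩ : N) = 1 := by
    have e1 : cl N w = Additive.ofMul (Abelianization.of ((⟨w, hw⟩ : N) *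
        (⟨sct N 1, hs⟩ : N)⁻¹)) := by
      unfold cl
      congr 2
      apply Subtype.ext
      simp only [h2, Subgroup.coe_mul, Subgroup.coe_inv]
    have e2 : cl N 1 = Additive.ofMul (Abelianization.of ((⟨sct N 1, hs⟩ : N)⁻¹)) := by
      unfold cl
      congr 2
      apply Subtype.ext
      simp only [map_one, one_mul, Subgroup.coe_inv]
    rw [e1, e2] at h1
    have h4 := Additive.ofMul.injective h1
    rw [map_mul] at h4
    exact mul_eq_right.1 h4
  have h5 : (⟨w, hw⟩ : N) ∈ commutator N := by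
    rw [← Abelianization.ker_of]
    exact h3
  rw [← Subgroup.map_subtype_commutator]
  exact ⟨⟨w, hw⟩, h5, rfl⟩

theorem fox_eq_zero_iff (w : FreeGroup X) (hw : w ∈ N) :
    fox (QuotientGroup.mk' N) w = 0 ↔ w ∈ ⁅N, N⁆ :=
  ⟨mem_commutator_of_fox N w hw, fun h => (commutator_le_foxKer N h).2⟩

end Magnus

end Pool.Agent.Helper72.HG
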