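import Pool.Agent.Helper72.HG.Resid
import Pool.Agent.Helper72.HG.Cross
import Pool.Agent.Helper54.HG2
import Pool.Agent.Helper28.HG.Ineq
import Pool.Agent.Helper75.HG.DivRing
set_option autoImplicit false

/-!
The inequality `χ ≥ 4 - 2 d`.
-/

open MonoidAlgebra MulOpposite Pool.Agent.Helper35.SH
open scoped commutatorElement

namespace Pool.Agent.Helper72.HG

lemma tame_of_subsingleton (Γ : Type) [Group Γ] [Subsingleton Γ] : Tame Γ where
  up := ⟨fun {A B} hA hB => by
    obtain ⟨a, ha⟩ := hA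
    obtain ⟨b, hb⟩ := hB
    exact ⟨a, ha, b, hb, UniqueMul.of_subsingleton⟩⟩
  folner T ε hε := by
    refine ⟨{1}, by simp, fun U _ => ?_⟩
    have h1 : U.card ≤ 1 := Finset.card_le_one_of_subsingleton U
    have h2 : (U.card : ℝ) ≤ 1 := by exact_mod_cast h1
    simp only [Finset.card_singleton, Nat.cast_one, mul_one]
    linarith

section

variable {X : Type} [DecidableEq X] [Finite X]

lemma tame_succ (M N : Subgroup (FreeGroup X)) [M.Normal] [N.Normal] (hN : N = ⁅M, M⁆)
    (h : Tame (FreeGroup X ⧸ M)) : Tame (FreeGroup X ⧸ N) := by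
  have hle : N ≤ M := by
    rw [hN]
    exact Subgroup.commutator_le_right _ _
  let f : FreeGroup X ⧸ N →* FreeGroup X ⧸ M := QuotientGroup.map _ _ (MonoidHom.id _) hle
  have hf : ∀ g : FreeGroup X, f (QuotientGroup.mk' N g) = 1 → g ∈ M := by
    intro g hg
    exact (QuotientGroup.eq_one_iff g).1 hg
  refine Pool.Agent.Helper54.HG2.tame_of_hom f h ?_ ?_
  · intro a b ha hb
    obtain ⟨a, rfl⟩ := QuotientGroup.mk'_surjective _ a
    obtain ⟨b, rfl⟩ := QuotientGroup.mk'_surjective _ b
    have h1 : ⁅a, b⁆ ∈ N := by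
      rw [hN]
      exact Subgroup.commutator_mem_commutator (hf a ha) (hf b hb)
    have h2 : QuotientGroup.mk' N ⁅a, b⁆ = 1 := (QuotientGroup.eq_one_iff _).2 h1
    rw [map_commutatorElement, commutatorElement_eq_one_iff_mul_comm] at h2
    exact h2
  · intro a ha k hk hak
    obtain ⟨a, rfl⟩ := QuotientGroup.mk'_surjective _ a
    rw [← map_pow] at hak
    have h1 : a ^ k ∈ N := (QuotientGroup.eq_one_iff _).1 hak
    rw [hN] at h1
    have h2 := mem_commutator_of_pow M a (hf a ha) k hk h1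
    rw [← hN] at h2
    exact (QuotientGroup.eq_one_iff _).2 h2

lemma tame_quot (n : ℕ) : Tame (FreeGroup X ⧸ derivedSeries (FreeGroup X) n) := by
  induction n with
  | zero =>
    have : Subsingleton (FreeGroup X ⧸ derivedSeries (FreeGroup X) 0) := by
      rw [derivedSeries_zero]
      exact QuotientGroup.subsingleton_quotient_top
    exact tame_of_subsingleton _
  | succ n ih => exact tame_succ _ _ (derivedSeries_succ _ n) ih

end

section

variable {Γ : Type} [Group Γ] {L : Type} [DivisionRing L]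

lemma linearIndependent_opp (w : Γ →* ℤˣ) (ρ : Γ →* L) (hρ : LinearIndependent ℤ ρ) :
    LinearIndependent ℤ (opp w ρ) := by
  have h1 : LinearIndependent ℤ (fun g : Γ => ρ g⁻¹) := hρ.comp (fun g : Γ => g⁻¹) inv_injective
  have h2 : LinearIndependent ℤ (fun g : Γ => (w g : ℤ) • ρ g⁻¹) := h1.units_smul (fun g => w g)
  exact h2.map' (opLinearEquiv ℤ : L ≃ₗ[ℤ] Lᵐᵒᵖ).toLinearMap (LinearEquiv.ker _)

lemma charZero_of_linearIndependent (ρ : Γ →* L) (hρ : LinearIndependent ℤ ρ) : CharZero L := by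
  refine charZero_of_inj_zero fun n hn => ?_
  by_contra h
  have h1 := (linearIndependent_iff.1 hρ) (Finsupp.single 1 (n : ℤ)) (by
    rw [Finsupp.linearCombination_single, map_one]
    simpa using hn)
  rw [Finsupp.single_eq_zero] at h1
  exact h (by exact_mod_cast h1)

end

section

variable {m : ℕ} {R : Type} [CommRing R] [Algebra R ℚ] {G : Type} [Group G]

theorem key (w : G →* ℤˣ) {a b c d e : Type} [Fintype a]
    [Fintype b] [Fintype c] [Fintype d] [Fintype e]
    {D₁ : Matrix b a (MonoidAlgebra R G)} {D₂ : Matrix c b (MonoidAlgebra R G)}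
    {D₃ : Matrix d c (MonoidAlgebra R G)} {D₄ : Matrix e d (MonoidAlgebra R G)}
    (h : IsStart D₁ D₂) (h' : IsStart (dual w D₄) (dual w D₃)) (h0 : D₃ * D₂ = 0)
    (x : Fin m → G) (hx : Subgroup.closure (Set.range x) = ⊤)
    (M : Subgroup (FreeGroup (Fin m))) [M.Normal] (hM : Tame (FreeGroup (Fin m) ⧸ M))
    (hP : (FreeGroup.lift x).ker ≤ M) (hw : ∀ f ∈ M, w (FreeGroup.lift x f) = 1)
    (r : FreeGroup (Fin m)) (hr : FreeGroup.lift x r = 1)
    (hf : fox (QuotientGroup.mk' M) r ≠ 0) :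
    2 + (Fintype.card b + Fintype.card d) + 2 ≤
      2 * m + (Fintype.card a + Fintype.card c + Fintype.card e) := by
  obtain ⟨K, _, ρ, hρ⟩ := Pool.Agent.Helper75.HG.exists_divisionRing hM
  have : CharZero K := charZero_of_linearIndependent ρ hρ
  let _ : Algebra R K := ((algebraMap ℚ K).comp (algebraMap R ℚ)).toAlgebra' (fun c y =>
    Algebra.commutes (algebraMap R ℚ c) y)
  have hsurj : Function.Surjective (FreeGroup.lift x) := by
    rw [← MonoidHom.range_eq_top, FreeGroup.range_lift_eq_closure, hx]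
  let p : G →* FreeGroup (Fin m) ⧸ M := (FreeGroup.lift x).liftOfRightInverse
    (Function.surjInv hsurj) (Function.rightInverse_surjInv hsurj)
    ⟨QuotientGroup.mk' M, by rw [QuotientGroup.ker_mk']; exact hP⟩
  have hp : ∀ f, p (FreeGroup.lift x f) = QuotientGroup.mk' M f := fun f =>
    MonoidHom.liftOfRightInverse_comp_apply _ _ _ _ _
  let w' : FreeGroup (Fin m) ⧸ M →* ℤˣ := QuotientGroup.lift M (w.comp (FreeGroup.lift x)) hw
  have hw' : ∀ f, w' (QuotientGroup.mk' M f) = w (FreeGroup.lift x f) := fun f => rfl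
  obtain ⟨hfin1, hle1⟩ := finrank_Z1_le x (QuotientGroup.mk' M) ρ (ρ.comp p) hx
    (fun f => by rw [MonoidHom.comp_apply, hp]) r hr hf hρ
  obtain ⟨hfin2, hle2⟩ := finrank_Z1_le x (QuotientGroup.mk' M) (opp w' ρ) (opp w (ρ.comp p)) hx
    (fun f => by
      show op ((w (FreeGroup.lift x f) : ℤ) • ρ (p (FreeGroup.lift x f)⁻¹)) =
        op ((w' (QuotientGroup.mk' M f) : ℤ) • ρ (QuotientGroup.mk' M f)⁻¹)
      rw [hw', ← map_inv, hp, map_inv]) r hr hf (linearIndependent_opp w' ρ hρ)
  have h1 := Pool.Agent.Helper28.HG.finrank_add_ge w (ρ.comp p) h h' h0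
  omega

lemma tame_torsionFree (x : Fin m → G) (M : Subgroup (FreeGroup (Fin m))) [M.Normal]
    (hM : ∀ f, f ∈ M ↔ ∃ k : ℕ, 0 < k ∧ (FreeGroup.lift x f) ^ k ∈ commutator G) :
    Tame (FreeGroup (Fin m) ⧸ M) := by
  refine Pool.Agent.Helper54.HG2.tame_of_hom (1 : FreeGroup (Fin m) ⧸ M →* PUnit)
    (tame_of_subsingleton _) ?_ ?_
  · intro a b _ _
    obtain ⟨a, rfl⟩ := QuotientGroup.mk'_surjective _ a
    obtain ⟨b, rfl⟩ := QuotientGroup.mk'_surjective _ b
    have h1 : ⁅a, b⁆ ∈ M := by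
      rw [hM]
      refine ⟨1, one_pos, ?_⟩
      rw [pow_one, map_commutatorElement, commutator_def]
      exact Subgroup.commutator_mem_commutator (Subgroup.mem_top _) (Subgroup.mem_top _)
    have h2 : QuotientGroup.mk' M ⁅a, b⁆ = 1 := (QuotientGroup.eq_one_iff _).2 h1
    rw [map_commutatorElement, commutatorElement_eq_one_iff_mul_comm] at h2
    exact h2
  · intro a _ k hk hak
    obtain ⟨a, rfl⟩ := QuotientGroup.mk'_surjective _ a
    rw [← map_pow] at hak
    have h1 : a ^ k ∈ M := (QuotientGroup.eq_one_iff _).1 hak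
    obtain ⟨l, hl, h2⟩ := (hM _).1 h1
    refine (QuotientGroup.eq_one_iff _).2 ((hM _).2 ⟨k * l, Nat.mul_pos hk hl, ?_⟩)
    rwa [map_pow, ← pow_mul] at h2

/-- **The inequality** `χ ≥ 4 - 2 m` for `m` generators which satisfy a relation. -/
theorem main (w : G →* ℤˣ) (hw : ∀ g : G, ∀ k : ℕ, 0 < k → g ^ k ∈ commutator G → w g = 1)
    {a b c d e : Type} [Fintype a] [Fintype b] [Fintype c] [Fintype d] [Fintype e]
    {D₁ : Matrix b a (MonoidAlgebra R G)} {D₂ : Matrix c b (MonoidAlgebra R G)}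
    {D₃ : Matrix d c (MonoidAlgebra R G)} {D₄ : Matrix e d (MonoidAlgebra R G)}
    (h : IsStart D₁ D₂) (h' : IsStart (dual w D₄) (dual w D₃)) (h0 : D₃ * D₂ = 0)
    (x : Fin m → G) (hx : Subgroup.closure (Set.range x) = ⊤)
    (hnf : ¬ Function.Injective (FreeGroup.lift x)) :
    2 + (Fintype.card b + Fintype.card d) + 2 ≤
      2 * m + (Fintype.card a + Fintype.card c + Fintype.card e) := by
  have hP : (FreeGroup.lift x).ker ≠ ⊥ := fun hcon => hnf ((MonoidHom.ker_eq_bot_iff _).1 hcon)
  obtain ⟨n, hn, hn'⟩ := exists_level _ hP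
  obtain ⟨r, hr, hr'⟩ := SetLike.not_le_iff_exists.1 hn'
  cases n with
  | zero =>
    let M : Subgroup (FreeGroup (Fin m)) := (CommGroup.torsion (Abelianization G)).comap
      ((Abelianization.of (G := G)).comp (FreeGroup.lift x))
    have hM : ∀ f, f ∈ M ↔ ∃ k : ℕ, 0 < k ∧ (FreeGroup.lift x f) ^ k ∈ commutator G := by
      intro f
      show IsOfFinOrder (Abelianization.of (FreeGroup.lift x f)) ↔ _
      rw [isOfFinOrder_iff_pow_eq_one]
      refine exists_congr fun k => and_congr_right fun _ => ?_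
      rw [← map_pow, ← MonoidHom.mem_ker, Abelianization.ker_of]
    have hMn : M.Normal := inferInstance
    refine key w h h' h0 x hx M (tame_torsionFree x M hM) ?_ ?_ r hr ?_
    · intro f hf
      rw [hM]
      exact ⟨1, one_pos, by rw [(MonoidHom.mem_ker).1 hf, one_pow]; exact Subgroup.one_mem _⟩
    · intro f hf
      obtain ⟨k, hk, hfk⟩ := (hM f).1 hf
      exact hw _ k hk hfk
    · intro hf
      apply hr'
      have h1 := fox_comp (QuotientGroup.mk' M) (QuotientGroup.map M (derivedSeries _ 0)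
        (MonoidHom.id _) (by rw [derivedSeries_zero]; exact le_top)) r
      have h2 : (QuotientGroup.map M (derivedSeries (FreeGroup (Fin m)) 0)
        (MonoidHom.id _) (by rw [derivedSeries_zero]; exact le_top)).comp (QuotientGroup.mk' M) =
        QuotientGroup.mk' (derivedSeries (FreeGroup (Fin m)) 0) := by
        ext w
        rfl
      rw [h2, hf] at h1
      rw [derivedSeries_succ]
      refine (fox_eq_zero_iff _ r (hn hr)).1 ?_
      funext i
      rw [h1 i]
      exact map_zero _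
  | succ n =>
    refine key w h h' h0 x hx (derivedSeries _ (n + 1)) (tame_quot _) hn ?_ r hr ?_
    · intro f hf
      have h1 : f ∈ derivedSeries (FreeGroup (Fin m)) 1 :=
        derivedSeries_antitone (G := FreeGroup (Fin m)) (Nat.le_add_left 1 n) hf
      have h2 : FreeGroup.lift x f ∈ derivedSeries G 1 :=
        map_derivedSeries_le_derivedSeries (FreeGroup.lift x) 1 ⟨f, h1, rfl⟩
      refine hw _ 1 one_pos ?_
      rw [pow_one, ← derivedSeries_one]
      exact h2
    · intro hf
      apply hr'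
      rw [derivedSeries_succ]
      exact (fox_eq_zero_iff _ r (hn hr)).1 hf

end

end Pool.Agent.Helper72.HG
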